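import Pool.Agent.K3h56.E2.Stm2
import Pool.Agent.K3h62.E2.Asm

/-!
# Project E2x (helper56, MP_dd9835_nt), brick ASM2: Rubin's conjecture from the statements for the
characters, `G` of exponent two (helper55)
-/

set_option autoImplicit false

open NumberField IsDedekindDomain Filter Topology

noncomputable section

namespace Pool.Agent.K3h55.E2

open Pool.Agent.K3h30.RS Pool.Agent.K3h56.E2 Pool.Agent.K3h62.E2

section N

variable {G : Type} [CommGroup G]

theorem sgn_one {χ : G →* ℂˣ} {g : G} (h : χ g = 1) : sgn χ g = 1 := by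
  unfold sgn
  rw [if_pos h]

theorem sgn_neg {χ : G →* ℂˣ} {g : G} (h : χ g ≠ 1) : sgn χ g = -1 := by
  unfold sgn
  rw [if_neg h]

theorem sgn_cast (χ : G →* ℂˣ) (g : G) : ((sgn χ g : ℤ) : ℚ) = eps χ g := by
  by_cases h : χ g = 1
  · rw [eps_one h, sgn_one h]
    norm_num
  · rw [eps_neg h, sgn_neg h]
    norm_num

theorem sgn_sq (χ : G →* ℂˣ) (g : G) : sgn χ g * sgn χ g = 1 := by
  by_cases h : χ g = 1
  · rw [sgn_one h]
    norm_num
  · rw [sgn_neg h]
    norm_num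

theorem chi_sgn {χ : G →* ℂˣ} (h2 : ∀ g : G, g * g = 1) (g : G) :
    ((χ g : ℂˣ) : ℂ) = ((sgn χ g : ℤ) : ℂ) := by
  rw [chi_eq h2, ← sgn_cast]
  push_cast
  rfl

theorem sgn_mul {χ : G →* ℂˣ} (h2 : ∀ g : G, g * g = 1) (g h : G) :
    sgn χ (g * h) = sgn χ g * sgn χ h := by
  have h1 : ((sgn χ (g * h) : ℤ) : ℂ) = ((sgn χ g * sgn χ h : ℤ) : ℂ) := by
    rw [← chi_sgn h2, map_mul, Units.val_mul, chi_sgn h2, chi_sgn h2]
    push_cast
    rfl
  exact_mod_cast h1

/-- `N_χ`, the sum of the `χ (g) g`. -/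
def NN [Fintype G] (χ : G →* ℂˣ) : MonoidAlgebra ℤ G :=
  ∑ g : G, MonoidAlgebra.single g (sgn χ g)

theorem single_mul_NN [Fintype G] {χ : G →* ℂˣ} (h2 : ∀ g : G, g * g = 1) (γ : G) :
    MonoidAlgebra.single γ (1 : ℤ) * NN χ = (sgn χ γ) • NN χ := by
  unfold NN
  rw [Finset.mul_sum, Finset.smul_sum,
    ← Equiv.sum_comp (Equiv.mulLeft γ) (fun g => sgn χ γ • MonoidAlgebra.single g (sgn χ g))]
  refine Finset.sum_congr rfl fun g _ => ?_
  rw [MonoidAlgebra.single_mul_single, one_mul, Equiv.coe_mulLeft, sgn_mul h2,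
    MonoidAlgebra.smul_single, smul_eq_mul, ← mul_assoc, sgn_sq, one_mul]

theorem NN_sq [Fintype G] {χ : G →* ℂˣ} (h2 : ∀ g : G, g * g = 1) :
    NN χ * NN χ = (Fintype.card G : ℤ) • NN χ := by
  have h : ∀ g : G, MonoidAlgebra.single g (sgn χ g) * NN χ = NN χ := by
    intro g
    have e : MonoidAlgebra.single g (sgn χ g) = sgn χ g • MonoidAlgebra.single g (1 : ℤ) := by
      rw [MonoidAlgebra.smul_single, smul_eq_mul, mul_one]
    rw [e, smul_mul_assoc, single_mul_NN h2, smul_smul, sgn_sq, one_smul]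
  have e0 : NN χ * NN χ = ∑ g : G, MonoidAlgebra.single g (sgn χ g) * NN χ := by
    show (∑ g : G, MonoidAlgebra.single g (sgn χ g)) * NN χ = _
    rw [Finset.sum_mul]
  rw [e0, Finset.sum_congr rfl fun g _ => h g, Finset.sum_const, Finset.card_univ, natCast_zsmul]

theorem NN_pow [Fintype G] {χ : G →* ℂˣ} (h2 : ∀ g : G, g * g = 1) (r : ℕ) :
    NN χ * NN χ ^ r = ((Fintype.card G : ℤ) ^ r) • NN χ := by
  induction r with
  | zero => rw [pow_zero, mul_one, pow_zero, one_smul]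
  | succ r ih =>
    rw [pow_succ, ← mul_assoc, ih, smul_mul_assoc, NN_sq h2, smul_smul, pow_succ]

theorem eq_smul_NN [Fintype G] {χ : G →* ℂˣ} (h2 : ∀ g : G, g * g = 1) (f : MonoidAlgebra ℤ G)
    (h : ∀ γ : G, MonoidAlgebra.single γ (1 : ℤ) * f = sgn χ γ • f) : f = (f.coeff 1) • NN χ := by
  apply MonoidAlgebra.ext
  apply Finsupp.ext
  intro g
  have h1 := congrArg (fun z : MonoidAlgebra ℤ G => z.coeff 1) (h g)
  simp only [MonoidAlgebra.coeff_single_mul_apply, one_mul, mul_one,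
    MonoidAlgebra.coeff_smul_apply, smul_eq_mul] at h1
  rw [inv_eq_of_mul_eq_one_left (h2 g)] at h1
  rw [h1, MonoidAlgebra.coeff_smul_apply, smul_eq_mul, mul_comm]
  congr 1
  unfold NN
  rw [MonoidAlgebra.coeff_sum, Finsupp.finsetSum_apply, Finset.sum_eq_single g]
  · rw [MonoidAlgebra.coeff_single, Finsupp.single_eq_same]
  · intro b _ hb
    rw [MonoidAlgebra.coeff_single, Finsupp.single_eq_of_ne (Ne.symm hb)]
  · intro hg
    exact absurd (Finset.mem_univ g) hg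

theorem toQ_NN [Fintype G] (χ : G →* ℂˣ) :
    toQ (NN χ) = ∑ g : G, MonoidAlgebra.single g (eps χ g) := by
  unfold NN toQ
  rw [map_sum]
  refine Finset.sum_congr rfl fun g _ => ?_
  rw [MonoidAlgebra.mapRingHom_single, ← sgn_cast]
  rfl

theorem coef_eq [Fintype G] (χ : G →* ℂˣ) (a : ℚ) :
    ∑ g : G, MonoidAlgebra.single g (a * eps χ g) = a • toQ (NN χ) := by
  rw [toQ_NN, Finset.smul_sum]
  refine Finset.sum_congr rfl fun g _ => ?_
  rw [MonoidAlgebra.smul_single, smul_eq_mul]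

/-- The determinant of a matrix of multiples of `N_χ`. -/
theorem det_NN [Fintype G] (χ : G →* ℂˣ) {r : ℕ} (m : Fin r → Fin r → ℤ) :
    Matrix.det (Matrix.of fun a b : Fin r => m a b • NN χ) =
      (Matrix.det (Matrix.of m)) • NN χ ^ r := by
  have e : (Matrix.of fun a b : Fin r => m a b • NN χ) =
      NN χ • (Matrix.of m).map (algebraMap ℤ (MonoidAlgebra ℤ G)) := by
    ext a b
    simp only [Matrix.of_apply, Matrix.smul_apply, Matrix.map_apply, smul_eq_mul]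
    rw [Algebra.smul_def, mul_comm]
  rw [e, Matrix.det_smul, Fintype.card_fin]
  have e2 : ((Matrix.of m).map (algebraMap ℤ (MonoidAlgebra ℤ G))).det =
      algebraMap ℤ (MonoidAlgebra ℤ G) (Matrix.det (Matrix.of m)) :=
    (RingHom.map_det (algebraMap ℤ (MonoidAlgebra ℤ G)) (Matrix.of m)).symm
  rw [e2, Algebra.smul_def, mul_comm]

theorem toQ_smul (a : ℤ) (z : MonoidAlgebra ℤ G) : toQ (a • z) = (a : ℚ) • toQ z := by
  rw [map_zsmul, Int.cast_smul_eq_zsmul]

end N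

theorem ghom_part {H G : Type} [Field H] [CommGroup G] [MulSemiringAction G H] {U : Subgroup Hˣ} (ψ : GHom G U) {χ : G →* ℂˣ} (x : U)
    (h1 : ∀ g : G, χ g = 1 → act g (x : Hˣ) = x)
    (hn : ∀ g : G, χ g ≠ 1 → act g (x : Hˣ) = (x : Hˣ)⁻¹) (γ : G) :
    MonoidAlgebra.single γ (1 : ℤ) * ψ.f (Additive.ofMul x) = sgn χ γ • ψ.f (Additive.ofMul x) := by
  by_cases h : χ γ = 1
  · rw [sgn_one h, one_smul]
    exact (ψ.equiv γ x x (h1 γ h).symm).symm
  · rw [sgn_neg h, neg_one_smul, ← map_neg]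
    have e : -(Additive.ofMul x) = Additive.ofMul x⁻¹ := rfl
    rw [e]
    refine (ψ.equiv γ x x⁻¹ ?_).symm
    rw [hn γ h]
    rfl

/-- **Brick ASM2.** -/
theorem t_ASM2 : S_ASM2 := by
  classical
  intro F H G _ _ _ _ _ _ _ _ _ D T _ h2 hS
  let _ := Fintype.ofFinite G
  have hfin : Finite (G →* ℂˣ) := finite_chars h2
  have hfin' : Finite {χ : G →* ℂˣ // D.Active χ} := inferInstance
  obtain ⟨n, ⟨e⟩⟩ := Finite.exists_equiv_fin {χ : G →* ℂˣ // D.Active χ}
  choose x q m hcl hlim hq using fun χ : {χ : G →* ℂˣ // D.Active χ} => (hS χ.1).2 χ.2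
  have hG : (Nat.card G : ℂ) ≠ 0 := by
    exact_mod_cast Nat.card_pos.ne'
  have hGQ : (Nat.card G : ℚ) ≠ 0 := by
    exact_mod_cast Nat.card_pos.ne'
  have hmem : ∀ (χ : {χ : G →* ℂˣ // D.Active χ}) (b : Fin D.r), x χ b ∈ part (D.U T) χ.1 := by
    intro χ b
    rw [← hcl χ]
    exact Subgroup.subset_closure (Set.mem_range_self b)
  have hU : ∀ (χ : {χ : G →* ℂˣ // D.Active χ}) (b : Fin D.r), x χ b ∈ D.U T :=
    fun χ b => (hmem χ b).1
  have hx1 : ∀ (χ : {χ : G →* ℂˣ // D.Active χ}) (b : Fin D.r) (g : G), χ.1 g = 1 →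
      act g (x χ b) = x χ b := fun χ b => (hmem χ b).2.1
  have hxn : ∀ (χ : {χ : G →* ℂˣ // D.Active χ}) (b : Fin D.r) (g : G), χ.1 g ≠ 1 →
      act g (x χ b) = (x χ b)⁻¹ := fun χ b => (hmem χ b).2.2
  let ε : (G →* ℂˣ) → ℤ := fun χ => ∏ v ∈ T, (-sgn χ (D.σ v))
  let κ : {χ : G →* ℂˣ // D.Active χ} → ℚ := fun χ => (ε χ.1 * m χ : ℤ) / (Nat.card G : ℚ) ^ D.r
  let cf : {χ : G →* ℂˣ // D.Active χ} → MonoidAlgebra ℚ G := fun χ =>
    ∑ g : G, MonoidAlgebra.single g (κ χ * eps χ.1 g)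
  have hcf : ∀ (χ : {χ : G →* ℂˣ // D.Active χ}) (χ' : G →* ℂˣ),
      cvHom χ' (toR (cf χ)) = if χ.1 = χ' then (κ χ : ℂ) * (Nat.card G : ℂ) else 0 := by
    intro χ χ'
    simp only [cf]
    rw [cv_sum h2]
    split_ifs with h
    · subst h
      rw [sum_self, ← Nat.card_eq_fintype_card]
    · rw [sum_ne h2 h, mul_zero]
  let xx : {χ : G →* ℂˣ // D.Active χ} → Fin D.r → D.U T := fun χ b => ⟨x χ b, hU χ b⟩
  -- the limit of the factor
  have hfac : ∀ χ : G →* ℂˣ, Tendsto (fun s : ℂ => ∏ v ∈ T, (1 - (χ (D.σ v) : ℂ) *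
      (Ideal.absNorm v.asIdeal : ℂ) ^ (1 - s))) (𝓝[≠] 0)
      (𝓝 ((ε χ : ℂ) * ∏ v ∈ T, ((Ideal.absNorm v.asIdeal : ℂ) - ((sgn χ (D.σ v) : ℤ) : ℂ)))) := by
    intro χ
    have hc : Continuous fun s : ℂ => ∏ v ∈ T, (1 - (χ (D.σ v) : ℂ) *
        (Ideal.absNorm v.asIdeal : ℂ) ^ (1 - s)) := by
      refine continuous_finsetProd _ fun v _ => ?_
      refine continuous_const.sub (continuous_const.mul ?_)
      refine Continuous.const_cpow (continuous_const.sub continuous_id) (Or.inl ?_)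
      have h0 : Ideal.absNorm v.asIdeal ≠ 0 := by
        rw [Ne, Ideal.absNorm_eq_zero_iff]
        exact v.ne_bot
      exact_mod_cast h0
    have h3 := (hc.tendsto 0).mono_left (nhdsWithin_le_nhds (s := {0}ᶜ))
    have hval : ∏ v ∈ T, (1 - (χ (D.σ v) : ℂ) * (Ideal.absNorm v.asIdeal : ℂ) ^ (1 - (0 : ℂ))) =
        (ε χ : ℂ) * ∏ v ∈ T, ((Ideal.absNorm v.asIdeal : ℂ) - ((sgn χ (D.σ v) : ℤ) : ℂ)) := by
      simp only [ε]
      push_cast
      rw [← Finset.prod_mul_distrib]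
      refine Finset.prod_congr rfl fun v _ => ?_
      rw [chi_sgn h2, sub_zero, Complex.cpow_one]
      have h4 : ((sgn χ (D.σ v) : ℤ) : ℂ) * ((sgn χ (D.σ v) : ℤ) : ℂ) = 1 := by
        exact_mod_cast sgn_sq χ (D.σ v)
      linear_combination (-1 : ℂ) * h4
    rw [← hval]
    exact h3
  refine ⟨⟨n, fun k => cf (e.symm k), fun k => xx (e.symm k)⟩, ?_, ?_, ?_⟩
  · intro χ hχ k
    rw [charValue_eq, hcf, if_neg]
    rintro rfl
    exact hχ (e.symm k).2
  · intro ψ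
    have key : ∀ χ : {χ : G →* ℂˣ // D.Active χ}, ∃ z : MonoidAlgebra ℤ G,
        cf χ * toQ (Matrix.det (Matrix.of fun a b : Fin D.r =>
          (ψ a).f (Additive.ofMul (xx χ b)))) = toQ z := by
      intro χ
      let mm : Fin D.r → Fin D.r → ℤ := fun a b => ((ψ a).f (Additive.ofMul (xx χ b))).coeff 1
      have e1 : ∀ a b, (ψ a).f (Additive.ofMul (xx χ b)) = mm a b • NN χ.1 := fun a b =>
        eq_smul_NN h2 _ (ghom_part (ψ a) (xx χ b) (hx1 χ b) (hxn χ b))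
      have e2 : Matrix.det (Matrix.of fun a b : Fin D.r => (ψ a).f (Additive.ofMul (xx χ b))) =
          (Matrix.det (Matrix.of mm)) • NN χ.1 ^ D.r := by
        rw [← det_NN χ.1 mm]
        congr 1
        ext1 a b
        exact e1 a b
      refine ⟨(ε χ.1 * m χ * Matrix.det (Matrix.of mm)) • NN χ.1, ?_⟩
      rw [e2]
      simp only [cf]
      rw [coef_eq, smul_mul_assoc, ← map_mul, mul_smul_comm, NN_pow h2, toQ_smul, toQ_smul,
        toQ_smul, smul_smul, smul_smul]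
      congr 1
      simp only [κ]
      rw [Nat.card_eq_fintype_card] at hGQ ⊢
      push_cast
      field_simp
    choose z hz using key
    refine ⟨∑ k, z (e.symm k), ?_⟩
    unfold Wedge.value
    rw [map_sum]
    exact Finset.sum_congr rfl fun k _ => hz (e.symm k)
  · intro χ
    have hreg : charValue χ (Wedge.regulator (⟨n, fun k => cf (e.symm k),
        fun k => xx (e.symm k)⟩ : Wedge G D.r (D.U T)) D.w) =
        ∑ k : Fin n, cvHom χ (toR (cf (e.symm k))) * cvHom χ (Matrix.det (Matrix.of fun a b =>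
          reg G (D.w a) (x (e.symm k) b : Hˣ))) := by
      rw [charValue_eq]
      unfold Wedge.regulator
      rw [map_sum]
      exact Finset.sum_congr rfl fun k _ => map_mul _ _ _
    have hLT : ∀ s : ℂ, (s ^ D.r)⁻¹ * D.LT T χ⁻¹ s = (∏ v ∈ T, (1 - (χ (D.σ v) : ℂ) *
        (Ideal.absNorm v.asIdeal : ℂ) ^ (1 - s))) * ((s ^ D.r)⁻¹ * D.L χ s) := by
      intro s
      unfold RubinData.LT
      rw [inv_chi h2]
      ring
    simp only [hLT]
    rw [hreg]
    by_cases hA : D.Active χ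
    · have h3 : ∑ k : Fin n, cvHom χ (toR (cf (e.symm k))) * cvHom χ (Matrix.det (Matrix.of
          fun a b => reg G (D.w a) (x (e.symm k) b : Hˣ))) =
          ((ε χ : ℂ) * ∏ v ∈ T, ((Ideal.absNorm v.asIdeal : ℂ) - ((sgn χ (D.σ v) : ℤ) : ℂ))) *
            (q ⟨χ, hA⟩ : ℂ) := by
        rw [Finset.sum_eq_single (e ⟨χ, hA⟩)]
        · rw [Equiv.symm_apply_apply, hcf, if_pos rfl,
            cv_det h2 χ D.w (fun b => (x ⟨χ, hA⟩ b : Hˣ)) (hx1 ⟨χ, hA⟩) (hxn ⟨χ, hA⟩)]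
          have h4 := hq ⟨χ, hA⟩
          generalize Matrix.det (Matrix.of fun a b : Fin D.r =>
            Real.log (av (D.w a) ((x ⟨χ, hA⟩ b : Hˣ) : H))) = dt at h4 ⊢
          have h5 : (q ⟨χ, hA⟩ : ℂ) * ∏ v ∈ T, ((Ideal.absNorm v.asIdeal : ℂ) -
              ((sgn χ (D.σ v) : ℤ) : ℂ)) = (m ⟨χ, hA⟩ : ℂ) * (Nat.card G : ℂ) * (dt : ℂ) := by
            exact_mod_cast h4
          have h6 : ((κ ⟨χ, hA⟩ : ℚ) : ℂ) * (Nat.card G : ℂ) ^ D.r = (ε χ : ℂ) * (m ⟨χ, hA⟩ : ℂ) := by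
            simp only [κ]
            push_cast
            field_simp
          calc ((κ ⟨χ, hA⟩ : ℚ) : ℂ) * (Nat.card G : ℂ) * ((Nat.card G : ℂ) ^ D.r * (dt : ℂ)) =
              (((κ ⟨χ, hA⟩ : ℚ) : ℂ) * (Nat.card G : ℂ) ^ D.r) * ((Nat.card G : ℂ) * (dt : ℂ)) := by
                ring
            _ = (ε χ : ℂ) * ((m ⟨χ, hA⟩ : ℂ) * (Nat.card G : ℂ) * (dt : ℂ)) := by
                rw [h6]
                ring
            _ = _ := by
                rw [← h5]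
                ring
        · intro k _ hk
          rw [hcf, if_neg, zero_mul]
          intro h4
          apply hk
          rw [← e.apply_symm_apply k]
          congr 1
          exact Subtype.ext h4
        · intro h
          exact absurd (Finset.mem_univ _) h
      rw [h3]
      exact (hfac χ).mul (hlim ⟨χ, hA⟩)
    · have h3 : ∑ k : Fin n, cvHom χ (toR (cf (e.symm k))) * cvHom χ (Matrix.det (Matrix.of
          fun a b => reg G (D.w a) (x (e.symm k) b : Hˣ))) = 0 := by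
        refine Finset.sum_eq_zero fun k _ => ?_
        rw [hcf, if_neg, zero_mul]
        rintro rfl
        exact hA (e.symm k).2
      rw [h3]
      have h4 := (hfac χ).mul ((hS χ).1 hA)
      rwa [mul_zero] at h4

end Pool.Agent.K3h55.E2
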